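import Pool.Agent.Helper58.LC.Goals

/-!
# LC, packet SMP
-/

set_option autoImplicit false

namespace Pool.Agent.Helper40.LC.SMP

open Pool.Agent.Helper58.LC
open Classical Finset

theorem t (hH : HS) (hK : K1) : SMP := by
  intro I J _ _ c a q ha hq hcard
  haveI : Nonempty J := ⟨c.ju⟩
  have hJ : 0 < Fintype.card J := Fintype.card_pos
  set S : J × J × I × I → Finset J := fun k => univ.filter (fun l =>
    ∃ t : ℝ, c.x k.2.2.1 ≤ t ∧ t ≤ c.x k.2.2.2 ∧ c.ln k.2.1 t < c.ln l t ∧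
      c.ln l t < c.ln k.1 t) with hS
  obtain ⟨R₀, hR₀, hhit⟩ := hH J (J × J × I × I) (fun _ => 1) S a q (fun _ => zero_le_one) ha hq
    (by
      rw [Fintype.card_prod, Fintype.card_prod, Fintype.card_prod]
      calc Fintype.card J * (Fintype.card J * (Fintype.card I * Fintype.card I))
          = Fintype.card J ^ 2 * Fintype.card I ^ 2 := by ring
        _ ≤ 2 ^ q := hcard)
    (by
      rw [Finset.sum_const, Finset.card_univ]
      simp [hJ])
  refine ⟨insert c.ju (insert c.jd R₀), ?_, by simp, by simp, ?_⟩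
  · have h1 := Finset.card_insert_le c.ju (insert c.jd R₀)
    have h2 := Finset.card_insert_le c.jd R₀
    omega
  intro h
  -- extreme points
  have hex : ∀ κ, (∃ i₀, h.key i₀ = κ) → ∃ i k, h.key i = κ ∧ h.key k = κ ∧
      ∀ i', h.key i' = κ → c.x i ≤ c.x i' ∧ c.x i' ≤ c.x k := by
    rintro κ ⟨i₀, hi₀⟩
    have hne : (univ.filter (fun i => h.key i = κ)).Nonempty := ⟨i₀, by simp [hi₀]⟩
    obtain ⟨i, hi, hi2⟩ := Finset.exists_min_image _ c.x hne
    obtain ⟨k, hk, hk2⟩ := Finset.exists_max_image _ c.x hne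
    refine ⟨i, k, by simpa using hi, by simpa using hk, fun i' hi' => ⟨?_, ?_⟩⟩
    · exact hi2 i' (by simp [hi'])
    · exact hk2 i' (by simp [hi'])
  choose ei ek h1 h2 h3 using hex
  refine ⟨fun κ => if hκ : (∃ i₀, h.key i₀ = κ) then S (κ.1, κ.2.1, ei κ hκ, ek κ hκ) else ∅, ?_, ?_⟩
  · intro κ
    simp only
    split_ifs with hκ
    · by_contra hcon
      push Not at hcon
      obtain ⟨v, hv, hvS⟩ := hhit (κ.1, κ.2.1, ei κ hκ, ek κ hκ) (by
        rw [Finset.sum_const, Finset.sum_const, Finset.card_univ]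
        simp only [nsmul_eq_mul, mul_one]
        exact_mod_cast hcon.le)
      simp only [hS, Finset.mem_filter, Finset.mem_univ, true_and] at hvS
      obtain ⟨t, ht1, ht2, ht3, ht4⟩ := hvS
      have hka : κ.1 = h.a (ei κ hκ) := by rw [← congrArg Prod.fst (h1 κ hκ)]; rfl
      have hkb : κ.2.1 = h.b (ei κ hκ) := by
        rw [← congrArg (fun z : J × J × ℕ => z.2.1) (h1 κ hκ)]; rfl
      refine hK I J c _ h (ei κ hκ) (ek κ hκ) t v ((h1 κ hκ).trans (h2 κ hκ).symm) ht1 ht2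
        (by simp [hv]) ⟨?_, ?_⟩
      · rw [← hkb]; exact ht3
      · rw [← hka]; exact ht4
    · simp
  · intro i l hil
    have hκ : ∃ i₀, h.key i₀ = h.key i := ⟨i, rfl⟩
    simp only [dif_pos hκ]
    simp only [hS, Finset.mem_filter, Finset.mem_univ, true_and]
    exact ⟨c.x i, (h3 _ hκ i rfl).1, (h3 _ hκ i rfl).2, hil.1, hil.2⟩

end Pool.Agent.Helper40.LC.SMP
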